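import Pool.Agent.Helper6.NX.GoalsE
import Pool.Agent.Helper15.An.CharMat

/-! NX-F3: the dimension of a representation of level exactly `r`. -/

set_option linter.unusedVariables false

namespace Pool.Agent.Helper35.NX

open Matrix Module Equiv Pool.Agent.Helper15.An
open Pool.Agent.Helper17.RelDim (fixS finrank_fixS_le)

theorem thmF3 : Pool.Agent.Helper6.NX.S_F3 := by
  classical
  intro n r D ρ hr1 hn hu hfix hno
  set C : Finset (Fin n) := Finset.univ.filter fun j : Fin n => ¬ j.val < r with hC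
  have hrn : r < n := by omega
  have hcard1 : (Finset.univ.filter fun j : Fin n => j.val < r).card = r := by
    have : (Finset.univ.filter fun j : Fin n => j.val < r) = Finset.Iio (⟨r, hrn⟩ : Fin n) := by
      ext j; simp [Fin.lt_def]
    rw [this, Fin.card_Iio]
  have hcard : C.card + r = n := by
    have h1 := Finset.card_filter_add_card_filter_not (s := (Finset.univ : Finset (Fin n)))
      (fun j : Fin n => j.val < r)
    rw [hcard1, Finset.card_univ, Fintype.card_fin] at h1
    rw [hC, add_comm]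
    convert h1 using 2
  have hno' : ∀ v : EuclideanSpace ℂ (Fin D), (∀ σ : Perm (Fin n), Perm.sign σ = 1 →
      (∀ j : Fin n, j.val < r - 1 → σ j = j) → toV ρ σ v = v) → v = 0 := by
    intro v hv
    by_contra hne
    apply hno
    refine ⟨v.ofLp, fun h0 => hne ?_, fun h => ?_⟩
    · ext i
      rw [h0]; rfl
    · have h1 := hv h.1 (mem_stab.1 h.2).1 (mem_stab.1 h.2).2
      rw [toV_apply] at h1
      exact congrArg WithLp.ofLp h1
  have hu' := toV_inner ρ hu
  have h1 := finrank_fixS_le (toV ρ) hu' (r - 1) r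
    (fun C' hC' => by
      rw [eq_bot_iff, ← altfix_eq_bot (toV ρ) (r - 1) hno' C' hC']
      exact fixS_le_altfix (toV ρ) C') (by omega) C (by omega)
  have h2 := finrank_fixS_le (tw (toV ρ)) (tw_unitary hu') (r - 1) r
    (fun C' hC' => by
      rw [eq_bot_iff, ← altfix_eq_bot (toV ρ) (r - 1) hno' C' hC']
      exact fixS_tw_le_altfix (toV ρ) C') (by omega) C (by omega)
  have h6 : finrank ℂ (altfix (toV ρ) C) ≤
      finrank ℂ (fixS (toV ρ) C) + finrank ℂ (fixS (tw (toV ρ)) C) :=
    (Submodule.finrank_mono (altfix_le (toV ρ) C (by omega))).trans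
      (Submodule.finrank_add_le_finrank_add_finrank _ _)
  have h7 : 1 ≤ finrank ℂ (altfix (toV ρ) C) := by
    obtain ⟨v, hv0, hv⟩ := hfix
    have hmem : (WithLp.toLp 2 v : EuclideanSpace ℂ (Fin D)) ∈ altfix (toV ρ) C := by
      intro σ hs hσ
      have hst : σ ∈ stab n r := by
        rw [mem_stab]
        refine ⟨hs, fun j hj => hσ j ?_⟩
        rw [hC, Finset.mem_filter]
        exact fun h => h.2 hj
      have := hv ⟨σ, hst⟩
      rw [toV_apply]
      exact congrArg (WithLp.toLp 2) this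
    rw [Nat.one_le_iff_ne_zero]
    intro h0
    have h8 := Submodule.finrank_eq_zero.1 h0
    rw [h8, Submodule.mem_bot] at hmem
    exact hv0 (congrArg WithLp.ofLp hmem)
  rw [finrank_euclideanSpace_fin, show r - 1 + 1 = r by omega] at h1 h2
  have hCr : (C.card : ℝ) = n - r := by
    have : (C.card : ℝ) + r = n := by exact_mod_cast hcard
    linarith
  have hr0 : (0 : ℝ) < r := by exact_mod_cast hr1
  have hn' : (4 * r + 4 : ℝ) ≤ n := by exact_mod_cast hn
  have hpos : (0 : ℝ) < (n : ℝ) - 2 * r - 1 := by linarith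
  have h3 : (1 - ((C.card : ℝ) - 2 * r - 1) / ((n : ℝ) - 2 * r - 1)) =
      r / ((n : ℝ) - 2 * r - 1) := by
    rw [hCr, eq_div_iff hpos.ne', sub_mul, div_mul_cancel₀ _ hpos.ne']
    ring
  rw [h3] at h1 h2
  have h8 : (1 : ℝ) ≤ 2 * ((r / ((n : ℝ) - 2 * r - 1)) ^ r * D) := by
    have h9 : (1 : ℝ) ≤ finrank ℂ (fixS (toV ρ) C) + finrank ℂ (fixS (tw (toV ρ)) C) := by
      exact_mod_cast h7.trans h6
    linarith
  have h10 : (((n : ℝ) - 2 * r - 1) / r) ^ r * (r / ((n : ℝ) - 2 * r - 1)) ^ r = 1 := by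
    rw [← mul_pow]
    have : ((n : ℝ) - 2 * r - 1) / r * (r / ((n : ℝ) - 2 * r - 1)) = 1 := by field_simp
    rw [this, one_pow]
  calc (((n : ℝ) - 2 * r - 1) / r) ^ r
      = (((n : ℝ) - 2 * r - 1) / r) ^ r * 1 := by ring
    _ ≤ (((n : ℝ) - 2 * r - 1) / r) ^ r * (2 * ((r / ((n : ℝ) - 2 * r - 1)) ^ r * D)) :=
        mul_le_mul_of_nonneg_left h8 (by positivity)
    _ = 2 * D * ((((n : ℝ) - 2 * r - 1) / r) ^ r * (r / ((n : ℝ) - 2 * r - 1)) ^ r) := by ring
    _ = 2 * D := by rw [h10, mul_one]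

end Pool.Agent.Helper35.NX
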