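import Pool.Agent.Helper6.NX.GoalsE
import Pool.Agent.Helper6.E.Ingr

/-! NX-NUM: the final numbers. -/

set_option linter.unusedVariables false

namespace Pool.Agent.Helper35.NX

open Matrix Equiv Filter Topology Pool.Agent.Helper15.An

theorem num_log (n : ℕ) (hn : 1 ≤ n) (h112 : (112 : ℝ) ≤ (n : ℝ) ^ (1 / 8 : ℝ)) :
    (2 * Real.sqrt n + 5) * Real.log (n + 1) ≤ (n : ℝ) ^ (3 / 4 : ℝ) := by
  have hn1 : (1 : ℝ) ≤ n := by exact_mod_cast hn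
  have hn0 : (0 : ℝ) ≤ n := by linarith
  have h1 : Real.log (n + 1) ≤ ((n : ℝ) + 1) ^ (1 / 8 : ℝ) / (1 / 8) :=
    Real.log_le_rpow_div (by linarith) (by norm_num)
  have h2 : ((n : ℝ) + 1) ^ (1 / 8 : ℝ) ≤ 2 * (n : ℝ) ^ (1 / 8 : ℝ) := by
    have h3 : ((n : ℝ) + 1) ^ (1 / 8 : ℝ) ≤ (2 * n) ^ (1 / 8 : ℝ) :=
      Real.rpow_le_rpow (by linarith) (by linarith) (by norm_num)
    have h4 : (2 * (n : ℝ)) ^ (1 / 8 : ℝ) = 2 ^ (1 / 8 : ℝ) * (n : ℝ) ^ (1 / 8 : ℝ) :=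
      Real.mul_rpow (by norm_num) hn0
    have h5 : (2 : ℝ) ^ (1 / 8 : ℝ) ≤ 2 ^ (1 : ℝ) :=
      Real.rpow_le_rpow_of_exponent_le (by norm_num) (by norm_num)
    rw [Real.rpow_one] at h5
    have h6 : (0 : ℝ) ≤ (n : ℝ) ^ (1 / 8 : ℝ) := by positivity
    calc _ ≤ _ := h3
      _ = _ := h4
      _ ≤ _ := mul_le_mul_of_nonneg_right h5 h6
  have h7 : Real.log (n + 1) ≤ 16 * (n : ℝ) ^ (1 / 8 : ℝ) := by
    have : ((n : ℝ) + 1) ^ (1 / 8 : ℝ) / (1 / 8) = 8 * ((n : ℝ) + 1) ^ (1 / 8 : ℝ) := by ring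
    rw [this] at h1
    linarith
  have h8 : 1 ≤ Real.sqrt n := by
    rw [Real.one_le_sqrt]; exact hn1
  have h9 : 0 ≤ Real.log (n + 1) := Real.log_nonneg (by linarith)
  have h10 : (0 : ℝ) ≤ (n : ℝ) ^ (1 / 8 : ℝ) := by positivity
  have h11 : (0 : ℝ) ≤ (n : ℝ) ^ (5 / 8 : ℝ) := by positivity
  calc (2 * Real.sqrt n + 5) * Real.log (n + 1)
      ≤ (7 * Real.sqrt n) * (16 * (n : ℝ) ^ (1 / 8 : ℝ)) := by
        apply mul_le_mul (by linarith) h7 h9 (by positivity)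
    _ = 112 * ((n : ℝ) ^ (1 / 2 : ℝ) * (n : ℝ) ^ (1 / 8 : ℝ)) := by
        rw [Real.sqrt_eq_rpow]; ring
    _ = 112 * (n : ℝ) ^ (5 / 8 : ℝ) := by
        rw [← Real.rpow_add (by linarith)]; norm_num
    _ ≤ (n : ℝ) ^ (1 / 8 : ℝ) * (n : ℝ) ^ (5 / 8 : ℝ) := mul_le_mul_of_nonneg_right h112 h11
    _ = (n : ℝ) ^ (3 / 4 : ℝ) := by
        rw [← Real.rpow_add (by linarith)]; norm_num

theorem num_count {n : ℕ} (hn : 1 ≤ n) (F : PW (Perm (Fin n))) (hc : 1 ≤ F.c) :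
    Real.log (4 * (n : ℝ) * F.c) ≤ (2 * Real.sqrt n + 5) * Real.log (n + 1) := by
  have hn1 : (1 : ℝ) ≤ n := by exact_mod_cast hn
  have h1 : (4 * n * F.c : ℕ) ≤ (n + 1) ^ (2 * Nat.sqrt n + 5) := by
    have h2 := Pool.Agent.Helper6.E.irr_count F
    have h3 : 4 * n ≤ (n + 1) ^ 3 := by nlinarith [sq_nonneg (n : ℤ)]
    calc 4 * n * F.c ≤ (n + 1) ^ 3 * (n + 1) ^ (2 * (Nat.sqrt n + 1)) := Nat.mul_le_mul h3 h2
      _ = (n + 1) ^ (2 * Nat.sqrt n + 5) := by rw [← pow_add]; congr 1; ring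
  have h2 : (4 * (n : ℝ) * F.c) ≤ ((n : ℝ) + 1) ^ (2 * Nat.sqrt n + 5) := by exact_mod_cast h1
  have hc1 : (1 : ℝ) ≤ F.c := by exact_mod_cast hc
  have h3 : Real.log (4 * (n : ℝ) * F.c) ≤ Real.log (((n : ℝ) + 1) ^ (2 * Nat.sqrt n + 5)) :=
    Real.log_le_log (by positivity) h2
  rw [Real.log_pow] at h3
  refine h3.trans ?_
  apply mul_le_mul_of_nonneg_right _ (Real.log_nonneg (by linarith))
  push_cast
  have : (Nat.sqrt n : ℝ) ≤ Real.sqrt n := Real.nat_sqrt_le_real_sqrt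
  linarith

theorem thmNUM : Pool.Agent.Helper6.NX.S_NUM := by
  intro γ γ' J hγ hγ1 hγ' hγ'8
  have ev1 : ∀ᶠ n : ℕ in atTop, (112 : ℝ) ≤ (n : ℝ) ^ (1 / 8 : ℝ) :=
    ((tendsto_rpow_atTop (by norm_num : (0 : ℝ) < 1 / 8)).comp
      tendsto_natCast_atTop_atTop).eventually_ge_atTop 112
  have ev2 : ∀ᶠ n : ℕ in atTop, (5 * 2 ^ J + 1 : ℝ) ≤ (n : ℝ) ^ γ' :=
    ((tendsto_rpow_atTop hγ').comp tendsto_natCast_atTop_atTop).eventually_ge_atTop _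
  filter_upwards [ev1, ev2, eventually_ge_atTop 1] with n h112 h5 hn
  intro F i d₀ d t ht hd0 hDt hd
  by_contra hdne
  have hd1 : 1 ≤ d := Nat.one_le_iff_ne_zero.2 hdne
  have hn1 : (1 : ℝ) ≤ n := by exact_mod_cast hn
  have hn0 : (0 : ℝ) < n := by linarith
  have hc : 1 ≤ F.c := by
    have := i.pos
    omega
  have hc1 : (1 : ℝ) ≤ F.c := by exact_mod_cast hc
  obtain ⟨g, hg⟩ : ∃ g : ℝ, g = (n : ℝ) ^ (-(2 * γ + 7 * γ')) := ⟨_, rfl⟩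
  obtain ⟨T, hT⟩ : ∃ T : ℕ, T = ⌈(n : ℝ) ^ (1 + 2 * γ + 5 * γ')⌉₊ := ⟨_, rfl⟩
  rw [← hg, ← hT] at hd0
  have hg0 : 0 < g := by rw [hg]; positivity
  have hg1 : g ≤ 1 := by
    rw [hg]
    exact Real.rpow_le_one_of_one_le_of_nonpos hn1 (by linarith)
  have hu : 1 ≤ (1 - g / 2) * Real.exp g := by
    have h1 : g + 1 ≤ Real.exp g := Real.add_one_le_exp g
    calc (1 : ℝ) ≤ (1 - g / 2) * (g + 1) := by nlinarith
      _ ≤ _ := mul_le_mul_of_nonneg_left h1 (by linarith)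
  have hd0' : (d₀ : ℝ) ≤ t * Real.exp (2 * T * g) := by
    have h1 : 1 ≤ ((1 - g / 2) * Real.exp g) ^ (2 * T) := one_le_pow₀ hu
    rw [mul_pow, ← Real.exp_nat_mul] at h1
    push_cast at h1
    calc (d₀ : ℝ) = d₀ * 1 := by ring
      _ ≤ d₀ * ((1 - g / 2) ^ (2 * T) * Real.exp (2 * T * g)) :=
          mul_le_mul_of_nonneg_left h1 (Nat.cast_nonneg _)
      _ = (d₀ * (1 - g / 2) ^ (2 * T)) * Real.exp (2 * T * g) := by ring
      _ ≤ _ := mul_le_mul_of_nonneg_right hd0 (Real.exp_pos _).le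
  have hTg : 2 * (T : ℝ) * g ≤ 4 * (n : ℝ) ^ (1 - 2 * γ') := by
    have h1 : (1 : ℝ) ≤ (n : ℝ) ^ (1 + 2 * γ + 5 * γ') := Real.one_le_rpow hn1 (by linarith)
    have h2 : (T : ℝ) ≤ 2 * (n : ℝ) ^ (1 + 2 * γ + 5 * γ') := by
      have := Nat.ceil_lt_add_one (by positivity : (0 : ℝ) ≤ (n : ℝ) ^ (1 + 2 * γ + 5 * γ'))
      rw [← hT] at this
      linarith
    calc 2 * (T : ℝ) * g ≤ 2 * (2 * (n : ℝ) ^ (1 + 2 * γ + 5 * γ')) * g := by
          apply mul_le_mul_of_nonneg_right _ hg0.le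
          linarith
      _ = 4 * ((n : ℝ) ^ (1 + 2 * γ + 5 * γ') * (n : ℝ) ^ (-(2 * γ + 7 * γ'))) := by
          rw [hg]; ring
      _ = 4 * (n : ℝ) ^ (1 - 2 * γ') := by
          rw [← Real.rpow_add hn0]; congr 2; ring
  have hlog : Real.log (4 * (n : ℝ) * F.c) ≤ (n : ℝ) ^ (1 - 2 * γ') :=
    ((num_count hn F hc).trans (num_log n hn h112)).trans
      (Real.rpow_le_rpow_of_exponent_le hn1 (by linarith))
  have hA : (0 : ℝ) < 4 * (n : ℝ) * F.c := by positivity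
  have hAexp : 4 * (n : ℝ) * F.c ≤ Real.exp ((n : ℝ) ^ (1 - 2 * γ')) := by
    rw [← Real.exp_log hA]
    exact Real.exp_le_exp.2 hlog
  have hD0 : (0 : ℝ) ≤ F.D i := Nat.cast_nonneg _
  have hb : 4 * (n : ℝ) * F.c * d₀ / F.D i ≤
      Real.exp (5 * (n : ℝ) ^ (1 - 2 * γ')) * (t / F.D i) := by
    have h1 : 4 * (n : ℝ) * F.c * d₀ ≤ Real.exp (5 * (n : ℝ) ^ (1 - 2 * γ')) * t := by
      calc 4 * (n : ℝ) * F.c * d₀ ≤ Real.exp ((n : ℝ) ^ (1 - 2 * γ')) *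
            (t * Real.exp (4 * (n : ℝ) ^ (1 - 2 * γ'))) := by
            apply mul_le_mul hAexp _ (Nat.cast_nonneg _) (Real.exp_pos _).le
            refine hd0'.trans ?_
            exact mul_le_mul_of_nonneg_left (Real.exp_le_exp.2 hTg) ht
        _ = (Real.exp ((n : ℝ) ^ (1 - 2 * γ')) * Real.exp (4 * (n : ℝ) ^ (1 - 2 * γ'))) * t := by
            ring
        _ = Real.exp (5 * (n : ℝ) ^ (1 - 2 * γ')) * t := by
            rw [← Real.exp_add]; congr 2; ring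
    calc 4 * (n : ℝ) * F.c * d₀ / F.D i ≤
          Real.exp (5 * (n : ℝ) ^ (1 - 2 * γ')) * t / F.D i := by gcongr
      _ = _ := by ring
  have hfin : 4 * (n : ℝ) * F.c ≤ Real.exp (-1) := by
    calc 4 * (n : ℝ) * F.c = 4 * (n : ℝ) * F.c * 1 := by ring
      _ ≤ 4 * (n : ℝ) * F.c * d := by
          apply mul_le_mul_of_nonneg_left _ hA.le
          exact_mod_cast hd1
      _ ≤ F.D i * (4 * (n : ℝ) * F.c * d₀ / F.D i) ^ (2 ^ J) := hd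
      _ ≤ F.D i * (Real.exp (5 * (n : ℝ) ^ (1 - 2 * γ')) * (t / F.D i)) ^ (2 ^ J) := by
          apply mul_le_mul_of_nonneg_left _ hD0
          exact pow_le_pow_left₀ (by positivity) hb _
      _ = Real.exp (5 * (n : ℝ) ^ (1 - 2 * γ')) ^ (2 ^ J) *
            (F.D i * (t / F.D i) ^ (2 ^ J)) := by rw [mul_pow]; ring
      _ ≤ Real.exp (5 * (n : ℝ) ^ (1 - 2 * γ')) ^ (2 ^ J) * Real.exp (-((n : ℝ) ^ (1 - γ'))) :=
          mul_le_mul_of_nonneg_left hDt (by positivity)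
      _ = Real.exp (2 ^ J * (5 * (n : ℝ) ^ (1 - 2 * γ')) - (n : ℝ) ^ (1 - γ')) := by
          rw [← Real.exp_nat_mul, ← Real.exp_add]; push_cast; congr 1
      _ ≤ Real.exp (-1) := by
          rw [Real.exp_le_exp]
          have h1 : (n : ℝ) ^ (1 - γ') = (n : ℝ) ^ γ' * (n : ℝ) ^ (1 - 2 * γ') := by
            rw [← Real.rpow_add hn0]; congr 1; ring
          have h2 : (1 : ℝ) ≤ (n : ℝ) ^ (1 - 2 * γ') := Real.one_le_rpow hn1 (by linarith)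
          have h3 := mul_le_mul_of_nonneg_right h5 (by linarith : (0 : ℝ) ≤ (n : ℝ) ^ (1 - 2 * γ'))
          rw [h1]
          linarith
  have h4 : Real.exp (-1) ≤ 1 := Real.exp_le_one_iff.2 (by norm_num)
  have h5' : (4 : ℝ) ≤ 4 * (n : ℝ) * F.c := by nlinarith
  linarith

end Pool.Agent.Helper35.NX
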