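import Pool.Agent.Helper65.NX.Goals3
import Pool.Agent.Helper65.NX.K41.CWTH
import Pool.Agent.Helper65.NX.K30.CVAL
import Pool.Agent.Helper65.NX.K35.CCONE

/-!
# Networks of processors: circuits, the bounds without descriptions (packet NX-CPL)
-/

namespace Pool.Agent.Helper35.NX

open Pool.Agent.Helper65.LinSpace Pool.Agent.Helper78.Mpc Pool.Agent.Helper28.Ram
open Pool.Agent.Helper65.HC Pool.Agent.Helper65.NX
open Pool.Agent.Helper65.NX.K41

/-- The number of bits of the number `r` of gates. -/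
theorem size_bound (n r s : ℕ) (C : ℝ) (hs : 1 ≤ s)
    (h1 : (r : ℝ) * s * ((Nat.log 2 n : ℝ) + 1) ^ 3 ≤ C * ((n : ℝ) + 1) ^ 2) :
    (r.size : ℝ) * ((Nat.log 2 n : ℝ) + 1) ^ 2 ≤ 8 * ((⌈|C|⌉₊ : ℝ) + 3) * ((n : ℝ) + 1) := by
  have hl1 : (1 : ℝ) ≤ (Nat.log 2 n : ℝ) + 1 := by
    have : (0 : ℝ) ≤ (Nat.log 2 n : ℝ) := Nat.cast_nonneg _
    linarith
  have hsr : (1 : ℝ) ≤ s := by exact_mod_cast hs
  have hn2 : n + 1 ≤ 2 ^ (Nat.log 2 n + 1) := Nat.lt_pow_succ_log_self (by norm_num) n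
  have e1 : (r : ℝ) ≤ C * ((n : ℝ) + 1) ^ 2 := by
    refine le_trans ?_ h1
    have e2 : (1 : ℝ) ≤ s * ((Nat.log 2 n : ℝ) + 1) ^ 3 := by
      have : (1 : ℝ) ≤ ((Nat.log 2 n : ℝ) + 1) ^ 3 := one_le_pow₀ hl1
      nlinarith
    have e3 : (0 : ℝ) ≤ (r : ℝ) := Nat.cast_nonneg _
    nlinarith
  have e2 : C ≤ ((2 ^ ⌈|C|⌉₊ : ℕ) : ℝ) := by
    have f1 : C ≤ |C| := le_abs_self C
    have f2 : |C| ≤ (⌈|C|⌉₊ : ℝ) := Nat.le_ceil _
    have f3 : (⌈|C|⌉₊ : ℝ) ≤ ((2 ^ ⌈|C|⌉₊ : ℕ) : ℝ) := by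
      exact_mod_cast (Nat.lt_two_pow_self (n := ⌈|C|⌉₊)).le
    linarith
  have e3 : ((n : ℝ) + 1) ^ 2 ≤ ((2 ^ (2 * (Nat.log 2 n + 1)) : ℕ) : ℝ) := by
    have f1 : (n + 1) ^ 2 ≤ 2 ^ (2 * (Nat.log 2 n + 1)) := by
      calc (n + 1) ^ 2 ≤ (2 ^ (Nat.log 2 n + 1)) ^ 2 := Nat.pow_le_pow_left hn2 2
        _ = 2 ^ (2 * (Nat.log 2 n + 1)) := by rw [← pow_mul, mul_comm]
    exact_mod_cast f1
  have e4 : (r : ℝ) ≤ ((2 ^ ⌈|C|⌉₊ : ℕ) : ℝ) * ((2 ^ (2 * (Nat.log 2 n + 1)) : ℕ) : ℝ) := by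
    refine e1.trans ?_
    exact mul_le_mul e2 e3 (by positivity) (by positivity)
  have e5 : r ≤ 2 ^ ⌈|C|⌉₊ * 2 ^ (2 * (Nat.log 2 n + 1)) := by exact_mod_cast e4
  have e6 : r.size ≤ ⌈|C|⌉₊ + 2 * (Nat.log 2 n + 1) + 1 := by
    rw [Nat.size_le, pow_succ, pow_add]
    have : 0 < 2 ^ ⌈|C|⌉₊ * 2 ^ (2 * (Nat.log 2 n + 1)) := by positivity
    omega
  have e7 : (r.size : ℝ) ≤ (⌈|C|⌉₊ : ℝ) + 2 * ((Nat.log 2 n : ℝ) + 1) + 1 := by exact_mod_cast e6
  have hl3 : ((Nat.log 2 n : ℝ) + 1) ^ 3 ≤ 8 * ((n : ℝ) + 1) := by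
    have f1 := cube_le (Nat.log 2 n)
    have hpow : 2 ^ Nat.log 2 n ≤ n + 1 := by
      rcases Nat.eq_zero_or_pos n with h | h
      · subst h
        simp
      · exact (Nat.pow_log_le_self 2 h.ne').trans (Nat.le_succ n)
    have f3 : (Nat.log 2 n + 1) ^ 3 ≤ 8 * (n + 1) := f1.trans (by omega)
    exact_mod_cast f3
  generalize (Nat.log 2 n : ℝ) + 1 = L at *
  have hk : (0 : ℝ) ≤ (⌈|C|⌉₊ : ℝ) := Nat.cast_nonneg _
  generalize (⌈|C|⌉₊ : ℝ) = k at *
  have hL0 : 0 < L := by linarith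
  calc (r.size : ℝ) * L ^ 2 ≤ (k + 2 * L + 1) * L ^ 2 := by gcongr
    _ ≤ (k * L + 2 * L + L) * L ^ 2 := by
      have : k ≤ k * L := by nlinarith
      gcongr
    _ = (k + 3) * L ^ 3 := by ring
    _ ≤ (k + 3) * (8 * ((n : ℝ) + 1)) := by gcongr
    _ = 8 * (k + 3) * ((n : ℝ) + 1) := by ring

theorem cpl_of (hV : CVAL_stmt) (hC : CCONE_stmt) : CPL_stmt := by
  intro A N hN
  refine ⟨?_, ?_⟩
  · rintro w y ⟨p, τ, h⟩
    refine ⟨bval p, ?_⟩
    unfold Net.AcceptsAt at h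
    rw [hV A N hN w y p p rfl τ] at h
    exact cc_head h
  · intro C
    refine ⟨16 * |(|C| + 8 * ((⌈|C|⌉₊ : ℝ) + 3))| + 128, fun w y hw => ?_⟩
    obtain ⟨r, s, hacc, hfit, h1, h2⟩ := hw
    have hs : 1 ≤ s := by
      have e1 := (hfit r le_rfl).1
      have e2 : A.val w y r ≠ [] := by
        intro h
        unfold Circ.AcceptsAt at hacc
        rw [h] at hacc
        simp at hacc
      have e3 : 0 < (A.val w y r).length := List.length_pos_iff.2 e2
      omega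
    have hsz := size_bound w.length r s C hs h1
    have hCk : C ≤ |C| + 8 * ((⌈|C|⌉₊ : ℝ) + 3) := by
      have f1 : C ≤ |C| := le_abs_self C
      have f2 : (0 : ℝ) ≤ (⌈|C|⌉₊ : ℝ) := Nat.cast_nonneg _
      linarith
    obtain ⟨B, hB0, hB1, hB2, hB3⟩ := numeric w.length s r.size r (|C| + 8 * ((⌈|C|⌉₊ : ℝ) + 3)) hs
      (h1.trans (mul_le_mul_of_nonneg_right hCk (by positivity)))
      (h2.trans (mul_le_mul_of_nonneg_right hCk (by positivity)))
      (hsz.trans (by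
        have f1 : (0 : ℝ) ≤ |C| := abs_nonneg C
        have f2 : (0 : ℝ) ≤ (w.length : ℝ) + 1 := by positivity
        nlinarith))
    have hra : r < 2 ^ r.size := Nat.lt_size_self r
    have hbr : bval r.bits = r := Pool.Agent.Helper31.TMS.bval_bits r
    have hlr : r.bits.length ≤ r.size := length_bits hra
    refine ⟨r.bits, 2 * r + 2, s + 3, 6 * r.size + 2 * (Nat.log 2 w.length + 1) + 9, B, B + 1,
      ?_, by omega, ?_, hB0, by omega, ?_, hB1, hB2, hB3⟩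
    · -- acceptance
      unfold Net.AcceptsAt
      rw [hV A N hN w y r.bits r.bits rfl, hbr]
      have e1 : cc A w y r (2 * r + 2) r = flg (A.val w y r) := by
        unfold cc
        rw [if_neg (by omega), if_pos (by omega)]
      rw [e1]
      exact flg_head.2 hacc
    · calc 2 * r + 2 ≤ 2 ^ (r.size + 1) := by rw [pow_succ]; omega
        _ < 2 ^ (6 * r.size + 2 * (Nat.log 2 w.length + 1) + 9) :=
          Nat.pow_lt_pow_right (by norm_num) (by omega)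
    · -- lengths and cones
      intro t ht z hz
      refine ⟨?_, ?_, ?_⟩
      · rw [hV A N hN w y r.bits z hz, hbr]
        exact cc_length hfit
      · obtain ⟨u, hu⟩ := view_eq N w.length r.bits t (N.val w y r.bits t) z N.deg
        intro b'
        rw [hu, hN.addr]
        simp only [List.drop_succ_cons, List.drop_zero]
        rw [cadr, hz_hd, hn_hd]
        have e1 : bval z < 2 ^ r.size := by
          refine (bval_lt z).trans_le (Nat.pow_le_pow_right (by norm_num) ?_)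
          omega
        have e2 : ∀ j, j ≤ bval z →
            j.bits.length ≤ 6 * r.size + 2 * (Nat.log 2 w.length + 1) + 9 := by
          intro j hj
          have := length_bits (i := j) (k := r.size) (by omega)
          omega
        split_ifs
        · exact e2 _ le_rfl
        · exact e2 _ (Nat.sub_le _ _)
      · intro k hk hkt
        exact (hC A N hN w.length r.bits k t z hkt hz).trans (by omega)

theorem cpl : CPL_stmt := cpl_of Pool.Agent.Helper65.NX.K30.cval Pool.Agent.Helper65.NX.K35.ccone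

end Pool.Agent.Helper35.NX
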