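import Pool.Agent.Helper65.NX.Goals3
import Pool.Agent.Helper65.NX.K41.CWTH

/-!
# Networks of processors which work on a word given by a local map (packet NX-LOC)
-/

namespace Pool.Agent.Helper35.NX

open Pool.Agent.Helper65.LinSpace Pool.Agent.Helper78.Mpc Pool.Agent.Helper28.Ram
open Pool.Agent.Helper65.HC Pool.Agent.Helper65.NX
open Pool.Agent.Helper65.NX.K41
open Pool.Agent.Helper92.RE (Loc)
open Pool.Agent.Helper81.RP (lett)

/-- The header with `len n` in the place of `n`. -/
noncomputable def kap (len : ℕ → ℕ) (u : List Bool) : List Bool :=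
  (sd (len (hn u)).bits ++ (sd (ht u).bits ++ (sd (hp u) ++ sd (hz u)))) ++ hr u

theorem kap_hd (len : ℕ → ℕ) (n t : ℕ) (p z X : List Bool) :
    kap len (hd n t p z ++ X) = hd (len n) t p z ++ X := by
  rw [kap, hn_hd, ht_hd, hp_hd, hz_hd, hr_hd]
  rfl

theorem wls_kap {len : ℕ → ℕ} (h : LS len) {f : List Bool → List Bool} (hf : WLS f) :
    WLS fun x => kap len (f x) := by
  unfold kap
  exact WLS.append (WLS.append (WLS.sdc (WLS.bits (NLS.map h (NLS.hn hf))))
    (WLS.append (WLS.sdc (WLS.bits (NLS.ht hf)))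
      (WLS.append (WLS.sdc (WLS.hp hf)) (WLS.sdc (WLS.hz hf))))) (WLS.hr hf)

/-- The word with the letter of the number `v`. -/
def wrd (v : ℕ) : List Bool := if v = 1 then [false] else if v = 2 then [true] else []

theorem wrd_lett (o : Option Bool) : wrd (lett o) = o.toList := by
  rcases o with _ | _ | _ <;> rfl

theorem codeO_lett (o : Option Bool) : codeO o = lett o := by
  rcases o with _ | _ | _ <;> rfl

theorem toList_head (o : Option Bool) : o.toList[0]? = o := by
  rcases o with _ | _ <;> rfl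

theorem wls_wrd {f : List Bool → ℕ} (hf : NLS f) : WLS fun x => wrd (f x) := by
  unfold wrd
  exact WLS.ite (PLS.eq hf (NLS.const 1)) (WLS.const _)
    (WLS.ite (PLS.eq hf (NLS.const 2)) (WLS.const _) (WLS.const _))

/-- The position in the word `F w` of the letter which is read, if the cell knows `u`. -/
noncomputable def adj (N : Net) (len : ℕ → ℕ) (u : List Bool) : ℕ :=
  bval (N.addr (false :: kap len u))

theorem wls_addr (N : Net) (K : ℕ) (hK : ∀ u, (N.addr u).length ≤ K * (u.length + 1)) :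
    WLS N.addr :=
  Pool.Agent.Helper31.DLS.lincomp' N.addr_lin K hK

theorem wls_cons (b : Bool) {f : List Bool → List Bool} (hf : WLS f) : WLS fun x => b :: f x :=
  WLS.congr (WLS.append (WLS.const [b]) hf) fun _ => rfl

theorem nls_adj {N : Net} (hN : WLS N.addr) {len : ℕ → ℕ} (h : LS len)
    {f : List Bool → List Bool} (hf : WLS f) : NLS fun x => adj N len (f x) :=
  WLS.val (WLS.comp hN (wls_cons false (wls_kap h hf)))

/-- The addresses. -/
noncomputable def addr' (N : Net) (len : ℕ → ℕ) (pos : ℕ → ℕ → ℕ) (u : List Bool) : List Bool :=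
  if u[0]? = some true then N.addr (true :: kap len (u.drop 1))
  else (if pos (hn (u.drop 1)) (adj N len (u.drop 1)) < hn (u.drop 1) then
    pos (hn (u.drop 1)) (adj N len (u.drop 1)) else hn (u.drop 1)).bits

/-- The new content. -/
noncomputable def next' (N : Net) (len : ℕ → ℕ) (lt : ℕ → ℕ → ℕ → ℕ) (x : List Bool) :
    List Bool :=
  N.next (sd (wrd (lt (hn (re (re x))) (adj N len (re (re x))) (codeO (pr x)[0]?))) ++
    (sd (pr (re x)) ++ kap len (re (re x))))

/-- The network. -/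
noncomputable def net (N : Net) (hN : WLS N.addr) (len : ℕ → ℕ) (pos : ℕ → ℕ → ℕ)
    (lt : ℕ → ℕ → ℕ → ℕ) (h1 : LS len) (h2 : LS (fun z : ℕ × ℕ => pos z.1 z.2))
    (h3 : LS (fun z : ℕ × ℕ × ℕ => lt z.1 z.2.1 z.2.2)) : Net where
  deg := N.deg
  nb := fun u => N.nb (kap len u)
  addr := addr' N len pos
  next := next' N len lt
  nb_lin := LC.comp N.nb_lin (wls_kap h1 WLS.id)
  addr_lin := by
    have hd1 : WLS fun u : List Bool => u.drop 1 := WLS.drop WLS.id 1
    have e1 : NLS fun u : List Bool => hn (u.drop 1) := NLS.hn hd1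
    have e2 : NLS fun u : List Bool => adj N len (u.drop 1) := nls_adj hN h1 hd1
    have e3 : NLS fun u : List Bool => pos (hn (u.drop 1)) (adj N len (u.drop 1)) :=
      NLS.map2 h2 e1 e2
    unfold addr'
    refine LC.ite (LC.letter_eq (LC.of_wls WLS.id) 0 (some true)) ?_ ?_
    · exact LC.comp N.addr_lin (wls_cons true (wls_kap h1 hd1))
    · exact LC.of_wls (WLS.bits (NLS.ite (PLS.lt e3 e1) e3 e1))
  next_lin := by
    have e0 : WLS fun x : List Bool => re (re x) := WLS.re (WLS.re WLS.id)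
    have e1 : NLS fun x : List Bool => hn (re (re x)) := NLS.hn e0
    have e2 : NLS fun x : List Bool => adj N len (re (re x)) := nls_adj hN h1 e0
    have e3 : NLS fun x : List Bool => codeO (pr x)[0]? := WLS.letter (WLS.pr WLS.id) (NLS.const 0)
    have e4 : NLS fun x : List Bool =>
        lt (hn (re (re x))) (adj N len (re (re x))) (codeO (pr x)[0]?) :=
      NLS.map3 h3 e1 e2 e3
    unfold next'
    exact LC.comp N.next_lin (WLS.append (WLS.sdc (wls_wrd e4))
      (WLS.append (WLS.sdc (WLS.pr (WLS.re WLS.id))) (wls_kap h1 e0)))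

/-! ### The contents -/

/-- The part of the view after the header. -/
def vrest (N : Net) (n : ℕ) (p : List Bool) (t : ℕ) (v : List Bool → List Bool)
    (z : List Bool) : ℕ → List Bool
  | 0 => []
  | i + 1 => vrest N n p t v z i ++ sd (v (N.inp n p t z i))

theorem view_rest (N : Net) (n : ℕ) (p : List Bool) (t : ℕ) (v : List Bool → List Bool)
    (z : List Bool) (i : ℕ) : N.view n p t v z i = hd n t p z ++ vrest N n p t v z i := by
  induction i with
  | zero => exact (List.append_nil _).symm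
  | succ i ih => rw [Net.view, ih, vrest, List.append_assoc]

section

variable (N : Net) (hN : WLS N.addr) (len : ℕ → ℕ) (pos : ℕ → ℕ → ℕ)
    (lt : ℕ → ℕ → ℕ → ℕ) (h1 : LS len) (h2 : LS (fun z : ℕ × ℕ => pos z.1 z.2))
    (h3 : LS (fun z : ℕ × ℕ × ℕ => lt z.1 z.2.1 z.2.2))

theorem net_inp (n : ℕ) (p : List Bool) (t : ℕ) (z : List Bool) (i : ℕ) :
    (net N hN len pos lt h1 h2 h3).inp n p t z i = N.inp (len n) p t z i := by
  unfold Net.inp
  have e : (net N hN len pos lt h1 h2 h3).nb (hd n t p z ++ i.bits) =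
      N.nb (hd (len n) t p z ++ i.bits) := by
    show N.nb (kap len (hd n t p z ++ i.bits)) = _
    rw [kap_hd]
  rw [e]

theorem net_vrest (n : ℕ) (p : List Bool) (t : ℕ) (v : List Bool → List Bool) (z : List Bool)
    (i : ℕ) : vrest (net N hN len pos lt h1 h2 h3) n p t v z i = vrest N (len n) p t v z i := by
  induction i with
  | zero => rfl
  | succ i ih => rw [vrest, vrest, ih, net_inp]

theorem net_cone (n : ℕ) (p : List Bool) (k t : ℕ) (z : List Bool) :
    (net N hN len pos lt h1 h2 h3).cone n p k t z = N.cone (len n) p k t z := by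
  induction k generalizing t z with
  | zero => rfl
  | succ k ih =>
    rw [Net.cone, Net.cone]
    simp only [ih, net_inp]
    rfl

theorem net_addr_true (u : List Bool) :
    (net N hN len pos lt h1 h2 h3).addr (true :: u) = N.addr (true :: kap len u) := by
  show addr' N len pos (true :: u) = _
  unfold addr'
  rw [if_pos (by simp)]
  rfl

theorem net_addr_false (u : List Bool) :
    (net N hN len pos lt h1 h2 h3).addr (false :: u) =
      (if pos (hn u) (adj N len u) < hn u then pos (hn u) (adj N len u) else hn u).bits := by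
  show addr' N len pos (false :: u) = _
  unfold addr'
  rw [if_neg (by simp)]
  rfl

theorem net_next (a b u : List Bool) :
    (net N hN len pos lt h1 h2 h3).next (sd a ++ (sd b ++ u)) =
      N.next (sd (wrd (lt (hn u) (adj N len u) (codeO a[0]?))) ++ (sd b ++ kap len u)) := by
  show next' N len lt (sd a ++ (sd b ++ u)) = _
  unfold next'
  rw [re_sd, re_sd, pr_sd, pr_sd]

theorem net_step (F : List Bool → List Bool) (w y : List Bool)
    (hF : (F w).length = len w.length ∧
      ∀ u, lett (F w)[u]? = lt w.length u (lett w[pos w.length u]?))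
    (p : List Bool) (t : ℕ) (v : List Bool → List Bool) (z : List Bool) :
    (net N hN len pos lt h1 h2 h3).step w y p t v z = N.step (F w) y p t v z := by
  unfold Net.step
  dsimp only
  rw [show (net N hN len pos lt h1 h2 h3).deg = N.deg from rfl]
  rw [view_rest, view_rest, net_vrest, hF.1]
  generalize vrest N (len w.length) p t v z N.deg = X
  have ek : kap len (hd w.length t p z ++ X) = hd (len w.length) t p z ++ X := kap_hd _ _ _ _ _ _
  have en : hn (hd w.length t p z ++ X) = w.length := hn_hd _ _ _ _ _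
  rw [net_next, net_addr_true, net_addr_false, en, toList_head, ek,
    Pool.Agent.Helper31.TMS.bval_bits]
  have ej : adj N len (hd w.length t p z ++ X) =
      bval (N.addr (false :: (hd (len w.length) t p z ++ X))) := by
    unfold adj
    rw [ek]
  rw [ej]
  generalize bval (N.addr (false :: (hd (len w.length) t p z ++ X))) = j
  have e5 : w[if pos w.length j < w.length then pos w.length j else w.length]? =
      w[pos w.length j]? := by
    split_ifs with h
    · rfl
    · rw [List.getElem?_eq_none (le_refl _), List.getElem?_eq_none (by omega)]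
  rw [e5, codeO_lett, ← hF.2 j, wrd_lett]

theorem net_val (F : List Bool → List Bool) (w y : List Bool)
    (hF : (F w).length = len w.length ∧
      ∀ u, lett (F w)[u]? = lt w.length u (lett w[pos w.length u]?))
    (p : List Bool) (t : ℕ) :
    (net N hN len pos lt h1 h2 h3).val w y p t = N.val (F w) y p t := by
  induction t with
  | zero => rfl
  | succ t ih =>
    funext z
    rw [Net.val, Net.val, ih]
    exact net_step N hN len pos lt h1 h2 h3 F w y hF p t _ z

end

/-! ### The bounds -/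

theorem loc_bounds (n m s a r V B b : ℕ) (C : ℝ) (hnm : n ≤ m) (hmb : m ≤ b * (n + 1))
    (h1 : (V : ℝ) * s * ((Nat.log 2 m : ℝ) + 1) *
      ((Nat.log 2 (Nat.log 2 m + 1) : ℝ) + 1) ≤ C * ((m : ℝ) + 1))
    (h2 : (r : ℝ) * ((Nat.log 2 m : ℝ) + 1) *
      ((Nat.log 2 (Nat.log 2 m + 1) : ℝ) + 1) ≤ C * ((m : ℝ) + 1) * B)
    (h3 : ((s : ℝ) + a) * ((Nat.log 2 m : ℝ) + 1) ^ 2 ≤ C * ((m : ℝ) + 1)) :
    (V : ℝ) * s * ((Nat.log 2 n : ℝ) + 1) *
      ((Nat.log 2 (Nat.log 2 n + 1) : ℝ) + 1) ≤ ((b + 1) * |C| + 8) * ((n : ℝ) + 1) ∧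
    (r : ℝ) * ((Nat.log 2 n : ℝ) + 1) *
      ((Nat.log 2 (Nat.log 2 n + 1) : ℝ) + 1) ≤ ((b + 1) * |C| + 8) * ((n : ℝ) + 1) * B ∧
    ((s : ℝ) + (a + (Nat.log 2 n + 1) : ℕ)) * ((Nat.log 2 n : ℝ) + 1) ^ 2 ≤
      ((b + 1) * |C| + 8) * ((n : ℝ) + 1) := by
  have hl : (Nat.log 2 n : ℝ) + 1 ≤ (Nat.log 2 m : ℝ) + 1 := by
    have : Nat.log 2 n ≤ Nat.log 2 m := Nat.log_mono_right hnm
    have h' : (Nat.log 2 n : ℝ) ≤ (Nat.log 2 m : ℝ) := by exact_mod_cast this
    linarith
  have hl' : (Nat.log 2 (Nat.log 2 n + 1) : ℝ) + 1 ≤ (Nat.log 2 (Nat.log 2 m + 1) : ℝ) + 1 := by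
    have : Nat.log 2 (Nat.log 2 n + 1) ≤ Nat.log 2 (Nat.log 2 m + 1) :=
      Nat.log_mono_right (Nat.succ_le_succ (Nat.log_mono_right hnm))
    have h' : (Nat.log 2 (Nat.log 2 n + 1) : ℝ) ≤ (Nat.log 2 (Nat.log 2 m + 1) : ℝ) := by
      exact_mod_cast this
    linarith
  have h0 : (0 : ℝ) < (Nat.log 2 n : ℝ) + 1 := by positivity
  have h0' : (0 : ℝ) < (Nat.log 2 (Nat.log 2 n + 1) : ℝ) + 1 := by positivity
  have hN : (0 : ℝ) < (n : ℝ) + 1 := by positivity
  have hm : (m : ℝ) + 1 ≤ ((b : ℝ) + 1) * ((n : ℝ) + 1) := by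
    have e1 : m + 1 ≤ (b + 1) * (n + 1) := by
      have : (b + 1) * (n + 1) = b * (n + 1) + (n + 1) := by ring
      omega
    exact_mod_cast e1
  have hCm : C * ((m : ℝ) + 1) ≤ ((b : ℝ) + 1) * |C| * ((n : ℝ) + 1) := by
    calc C * ((m : ℝ) + 1) ≤ |C| * ((m : ℝ) + 1) :=
          mul_le_mul_of_nonneg_right (le_abs_self C) (by positivity)
      _ ≤ |C| * (((b : ℝ) + 1) * ((n : ℝ) + 1)) := by
          gcongr
      _ = ((b : ℝ) + 1) * |C| * ((n : ℝ) + 1) := by ring
  have hl3 : ((Nat.log 2 n : ℝ) + 1) ^ 3 ≤ 8 * ((n : ℝ) + 1) := by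
    have f1 := cube_le (Nat.log 2 n)
    have hpow : 2 ^ Nat.log 2 n ≤ n + 1 := by
      rcases Nat.eq_zero_or_pos n with h | h
      · subst h
        simp
      · exact (Nat.pow_log_le_self 2 h.ne').trans (Nat.le_succ n)
    have f3 : (Nat.log 2 n + 1) ^ 3 ≤ 8 * (n + 1) := f1.trans (by omega)
    exact_mod_cast f3
  refine ⟨?_, ?_, ?_⟩
  · calc (V : ℝ) * s * ((Nat.log 2 n : ℝ) + 1) * ((Nat.log 2 (Nat.log 2 n + 1) : ℝ) + 1)
        ≤ (V : ℝ) * s * ((Nat.log 2 m : ℝ) + 1) * ((Nat.log 2 (Nat.log 2 m + 1) : ℝ) + 1) := by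
          gcongr
      _ ≤ C * ((m : ℝ) + 1) := h1
      _ ≤ ((b : ℝ) + 1) * |C| * ((n : ℝ) + 1) := hCm
      _ ≤ ((b + 1) * |C| + 8) * ((n : ℝ) + 1) := by nlinarith
  · calc (r : ℝ) * ((Nat.log 2 n : ℝ) + 1) * ((Nat.log 2 (Nat.log 2 n + 1) : ℝ) + 1)
        ≤ (r : ℝ) * ((Nat.log 2 m : ℝ) + 1) * ((Nat.log 2 (Nat.log 2 m + 1) : ℝ) + 1) := by
          gcongr
      _ ≤ C * ((m : ℝ) + 1) * B := h2
      _ ≤ ((b : ℝ) + 1) * |C| * ((n : ℝ) + 1) * B := by
          exact mul_le_mul_of_nonneg_right hCm (Nat.cast_nonneg _)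
      _ ≤ ((b + 1) * |C| + 8) * ((n : ℝ) + 1) * B := by
          refine mul_le_mul_of_nonneg_right ?_ (Nat.cast_nonneg _)
          nlinarith
  · have e1 : ((a + (Nat.log 2 n + 1) : ℕ) : ℝ) = a + ((Nat.log 2 n : ℝ) + 1) := by
      push_cast
      ring
    rw [e1]
    calc ((s : ℝ) + (a + ((Nat.log 2 n : ℝ) + 1))) * ((Nat.log 2 n : ℝ) + 1) ^ 2
        = ((s : ℝ) + a) * ((Nat.log 2 n : ℝ) + 1) ^ 2 + ((Nat.log 2 n : ℝ) + 1) ^ 3 := by ring
      _ ≤ ((s : ℝ) + a) * ((Nat.log 2 m : ℝ) + 1) ^ 2 + 8 * ((n : ℝ) + 1) := by gcongr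
      _ ≤ ((b : ℝ) + 1) * |C| * ((n : ℝ) + 1) + 8 * ((n : ℝ) + 1) :=
          add_le_add (h3.trans hCm) le_rfl
      _ = ((b + 1) * |C| + 8) * ((n : ℝ) + 1) := by ring

theorem loc : LOC_stmt := by
  intro N K hK F hF hlen
  obtain ⟨len, pos, lt, h1, h2, h3, ⟨b, hb⟩, hFw⟩ := hF
  have hN : WLS N.addr := wls_addr N K hK
  have hval : ∀ w y p t, (net N hN len pos lt h1 h2 h3).val w y p t = N.val (F w) y p t :=
    fun w y p t => net_val N hN len pos lt h1 h2 h3 F w y (hFw w) p t
  have hacc : ∀ w y p r, (net N hN len pos lt h1 h2 h3).AcceptsAt w y p r ↔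
      N.AcceptsAt (F w) y p r := by
    intro w y p r
    unfold Net.AcceptsAt
    rw [hval]
  refine ⟨net N hN len pos lt h1 h2 h3, hacc, fun C => ⟨(b + 1) * |C| + 8, fun w y hw => ?_⟩⟩
  obtain ⟨p, r, s, a, B, V, k1, k2, k3, k4, k5, k6, k7, k8, k9⟩ := hw
  have hm : (F w).length = len w.length := (hFw w).1
  obtain ⟨m1, m2, m3⟩ := loc_bounds w.length (F w).length s a r V B b C (hlen w)
    (by rw [hm]; exact hb _) k7 k8 k9
  refine ⟨p, r, s, a + (Nat.log 2 w.length + 1), B, V, (hacc w y p r).2 k1, by omega,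
    k3.trans_le (Nat.pow_le_pow_right (by norm_num) (by omega)), k4, k5, ?_, m1, m2, m3⟩
  intro t ht z hz
  obtain ⟨q1, q2, q3⟩ := k6 t ht z hz
  refine ⟨?_, ?_, ?_⟩
  · rw [hval]
    exact q1
  · intro b'
    rw [show (net N hN len pos lt h1 h2 h3).deg = N.deg from rfl, hval, view_rest, net_vrest]
    rcases b' with _ | _
    · rw [net_addr_false, hn_hd]
      have e1 : (if pos w.length (adj N len (hd w.length t p z ++
          vrest N (len w.length) p t (N.val (F w) y p t) z N.deg)) < w.length then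
          pos w.length (adj N len (hd w.length t p z ++
          vrest N (len w.length) p t (N.val (F w) y p t) z N.deg)) else w.length) ≤ w.length := by
        split_ifs with h
        · exact h.le
        · exact le_rfl
      have e2 : w.length < 2 ^ (Nat.log 2 w.length + 1) := Nat.lt_pow_succ_log_self (by norm_num) _
      exact (length_bits (e1.trans_lt e2)).trans (by omega)
    · rw [net_addr_true, kap_hd]
      have q4 := q2 true
      rw [view_rest, hm] at q4
      exact q4.trans (by omega)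
  · intro k hk hkt
    rw [net_cone, ← hm]
    exact q3 k hk hkt

end Pool.Agent.Helper35.NX
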